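import Pool.Agent.Helper14_QE.RFApp

/-!
# Module AC2: the energy resolution of a conserved observable
-/

set_option autoImplicit false

open scoped InnerProductSpace ComplexConjugate Topology ENNReal
open MeasureTheory Filter

noncomputable section

namespace Pool.Agent.Helper14.QE

open Pool.Agent.QE Pool.Agent.Anderson Pool.Agent.Helper54.Bal Pool.Agent.Helper35.AC

variable {d : ℕ}

theorem pk_continuous {ε : ℝ} (hε : 0 < ε) : Continuous (pk ε) := by
  unfold pk
  exact continuous_const.div (by fun_prop) fun t => by positivity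

theorem abs_Pr_le {f : ℝ → ℝ} {P : ℝ} (hP : ∀ t, |f t| ≤ P) {ε : ℝ} (hε : 0 < ε) (t : ℝ) :
    |Pr f ε t| ≤ P * Real.pi := by
  rw [Pr_eq f hε t, ← Real.norm_eq_abs]
  have h1 : ∀ s : ℝ, ‖f (t + ε * s) * (1 + s ^ 2)⁻¹‖ ≤ P * (1 + s ^ 2)⁻¹ := by
    intro s
    rw [norm_mul, Real.norm_eq_abs, Real.norm_eq_abs, abs_of_nonneg
      (by positivity : (0:ℝ) ≤ (1 + s ^ 2)⁻¹)]
    exact mul_le_mul_of_nonneg_right (hP _) (by positivity)
  refine (norm_integral_le_of_norm_le (integrable_K.const_mul P)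
    (Eventually.of_forall h1)).trans ?_
  rw [integral_const_mul, integral_univ_inv_one_add_sq]

theorem tendsto_pois {f : ℝ → ℝ} (hf : Continuous f) {P : ℝ} (hP : ∀ t, |f t| ≤ P) {e : ℕ → ℝ}
    (he : ∀ k, 0 < e k) (he0 : Tendsto e atTop (𝓝 0)) (t : ℝ) :
    Tendsto (fun k => Pr f (e k) t) atTop (𝓝 (Real.pi * f t)) := by
  have h3 : Real.pi * f t = ∫ s : ℝ, f t * (1 + s ^ 2)⁻¹ := by
    rw [integral_const_mul, integral_univ_inv_one_add_sq, mul_comm]
  rw [h3]
  simp only [fun k => Pr_eq f (he k) t]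
  refine tendsto_integral_of_dominated_convergence (fun s => P * (1 + s ^ 2)⁻¹) ?_
    (integrable_K.const_mul P) ?_ ?_
  · intro k
    have h1 : Continuous fun s : ℝ => (1 + s ^ 2)⁻¹ :=
      Continuous.inv₀ (by fun_prop) (fun s => by positivity)
    exact ((hf.comp (by fun_prop)).mul h1).aestronglyMeasurable
  · intro k
    refine Eventually.of_forall fun s => ?_
    rw [norm_mul, Real.norm_eq_abs, Real.norm_eq_abs, abs_of_nonneg
      (by positivity : (0:ℝ) ≤ (1 + s ^ 2)⁻¹)]
    exact mul_le_mul_of_nonneg_right (hP _) (by positivity)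
  · refine Eventually.of_forall fun s => ?_
    refine Tendsto.mul_const _ ?_
    have h1 : Tendsto (fun k => t + e k * s) atTop (𝓝 (t + 0 * s)) :=
      (he0.mul_const s).const_add t
    rw [zero_mul, add_zero] at h1
    exact (hf.tendsto t).comp h1

/-- the density of the absolutely continuous part -/
def dens0 (m : Measure ℝ) (t : ℝ) : ℝ := (m.rnDeriv volume t).toReal

/-- the Poisson integral of the singular part -/
def sPo (m : Measure ℝ) (ε E : ℝ) : ℝ := ∫ t, pk ε (t - E) ∂(m.singularPart volume)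

section meas

variable (m : Measure ℝ) [IsFiniteMeasure m]

theorem measurable_dens0 : Measurable (dens0 m) := (Measure.measurable_rnDeriv _ _).ennreal_toReal

theorem dens0_nonneg (t : ℝ) : 0 ≤ dens0 m t := ENNReal.toReal_nonneg

theorem integrable_dens0 : Integrable (dens0 m) := Measure.integrable_toReal_rnDeriv

theorem integrable_pk (μ : Measure ℝ) [IsFiniteMeasure μ] {ε : ℝ} (hε : 0 < ε) (E : ℝ) :
    Integrable (fun t => pk ε (t - E)) μ := by
  refine Integrable.of_bound (C := ε⁻¹)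
    ((pk_continuous hε).comp (by fun_prop : Continuous fun t : ℝ => t - E)).aestronglyMeasurable
    (Eventually.of_forall fun t => ?_)
  rw [Real.norm_eq_abs, abs_of_nonneg (pk_nonneg hε _)]
  exact pk_le hε _

theorem split {ε : ℝ} (hε : 0 < ε) (E : ℝ) :
    ∫ t, pk ε (t - E) ∂m = sPo m ε E + Pr (dens0 m) ε E := by
  have h1 := Measure.singularPart_add_rnDeriv m (volume : Measure ℝ)
  have hfin : IsFiniteMeasure ((volume : Measure ℝ).withDensity (m.rnDeriv volume)) := inferInstance
  have h2 : ∫ t, pk ε (t - E) ∂m = ∫ t, pk ε (t - E) ∂(m.singularPart volume +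
      (volume : Measure ℝ).withDensity (m.rnDeriv volume)) := by rw [h1]
  rw [h2, integral_add_measure (integrable_pk _ hε E) (integrable_pk _ hε E)]
  congr 1
  rw [integral_withDensity_eq_integral_toReal_smul (Measure.measurable_rnDeriv _ _)
    (Measure.rnDeriv_lt_top _ _)]
  rfl

theorem sPo_nonneg {ε : ℝ} (hε : 0 < ε) (E : ℝ) : 0 ≤ sPo m ε E :=
  integral_nonneg fun t => pk_nonneg hε _

theorem Pr_nonneg {ε : ℝ} (hε : 0 < ε) (E : ℝ) : 0 ≤ Pr (dens0 m) ε E :=
  integral_nonneg fun t => mul_nonneg (dens0_nonneg m t) (by positivity)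

theorem measurable_sPo {ε : ℝ} (hε : 0 < ε) : Measurable (sPo m ε) := by
  have h : Continuous fun q : ℝ × ℝ => pk ε (q.2 - q.1) :=
    (pk_continuous hε).comp (by fun_prop)
  have := h.stronglyMeasurable.integral_prod_right' (ν := m.singularPart volume)
  exact this.measurable

theorem measurable_Pr {ρ : ℝ → ℝ} (hρ : Measurable ρ) (ε : ℝ) : Measurable (Pr ρ ε) := by
  have h : Measurable fun q : ℝ × ℝ => ρ q.2 * (ε / ((q.2 - q.1) ^ 2 + ε ^ 2)) := by fun_prop
  have := h.stronglyMeasurable.integral_prod_right' (ν := (volume : Measure ℝ))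
  exact this.measurable

/-- Tonelli for the singular part -/
theorem sing_tonelli {f : ℝ → ℝ} (hf : Continuous f) (hf0 : ∀ t, 0 ≤ f t) {P : ℝ}
    (hP : ∀ t, |f t| ≤ P) {ε : ℝ} (hε : 0 < ε) :
    ∫⁻ E, ENNReal.ofReal (f E * sPo m ε E) =
      ∫⁻ t, ENNReal.ofReal (Pr f ε t) ∂(m.singularPart volume) := by
  have hpk := pk_continuous hε
  have h1 : ∀ E, ENNReal.ofReal (f E * sPo m ε E) =
      ∫⁻ t, ENNReal.ofReal (f E * pk ε (t - E)) ∂(m.singularPart volume) := by
    intro E
    unfold sPo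
    rw [← integral_const_mul, ofReal_integral_eq_lintegral_ofReal]
    · exact (integrable_pk _ hε E).const_mul _
    · exact Eventually.of_forall fun t => mul_nonneg (hf0 E) (pk_nonneg hε _)
  have h2 : ∀ t, ENNReal.ofReal (Pr f ε t) = ∫⁻ E, ENNReal.ofReal (f E * pk ε (t - E)) := by
    intro t
    have e : Pr f ε t = ∫ E, f E * pk ε (t - E) := by
      unfold Pr pk
      congr 1
      funext E
      rw [show (E - t) ^ 2 = (t - E) ^ 2 by ring]
    rw [e, ofReal_integral_eq_lintegral_ofReal]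
    · have i1 : Integrable fun E => pk ε (t - E) := by
        have := (integral_shift_poisson hε t).1.const_mul ε
        refine this.congr (Eventually.of_forall fun E => ?_)
        simp only [pk]
        rw [show (t - E) ^ 2 = (E - t) ^ 2 by ring, div_eq_mul_inv]
      exact i1.bdd_mul (c := P) hf.aestronglyMeasurable
        (Eventually.of_forall fun E => by rw [Real.norm_eq_abs]; exact hP E)
    · exact Eventually.of_forall fun E => mul_nonneg (hf0 E) (pk_nonneg hε _)
  simp only [h1, h2]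
  refine lintegral_lintegral_swap ?_
  have hc : Continuous (Function.uncurry fun E t : ℝ => f E * pk ε (t - E)) := by
    have h3 : Continuous fun q : ℝ × ℝ => pk ε (q.2 - q.1) := hpk.comp (by fun_prop)
    exact (hf.comp continuous_fst).mul h3
  exact (ENNReal.continuous_ofReal.comp hc).measurable.aemeasurable

theorem sing_tendsto {f : ℝ → ℝ} (hf : Continuous f) (hf0 : ∀ t, 0 ≤ f t) {P : ℝ}
    (hP : ∀ t, |f t| ≤ P) {e : ℕ → ℝ} (he : ∀ k, 0 < e k) (he0 : Tendsto e atTop (𝓝 0)) :
    Tendsto (fun k => ∫⁻ E, ENNReal.ofReal (f E * sPo m (e k) E)) atTop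
      (𝓝 (ENNReal.ofReal Real.pi * ∫⁻ t, ENNReal.ofReal (f t) ∂(m.singularPart volume))) := by
  simp only [fun k => sing_tonelli m hf hf0 hP (he k)]
  have h1 : ENNReal.ofReal Real.pi * ∫⁻ t, ENNReal.ofReal (f t) ∂(m.singularPart volume) =
      ∫⁻ t, ENNReal.ofReal (Real.pi * f t) ∂(m.singularPart volume) := by
    rw [← lintegral_const_mul' _ _ ENNReal.ofReal_ne_top]
    exact lintegral_congr fun t => (ENNReal.ofReal_mul Real.pi_pos.le).symm
  rw [h1]
  refine tendsto_lintegral_of_dominated_convergence (fun _ => ENNReal.ofReal (P * Real.pi))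
    ?_ ?_ ?_ ?_
  · intro k
    exact (measurable_Pr hf.measurable _).ennreal_ofReal
  · intro k
    refine Eventually.of_forall fun t => ENNReal.ofReal_le_ofReal ?_
    exact (le_abs_self _).trans (abs_Pr_le hP (he k) t)
  · rw [lintegral_const]
    exact ENNReal.mul_ne_top ENNReal.ofReal_ne_top (measure_ne_top _ _)
  · refine Eventually.of_forall fun t => ?_
    exact (ENNReal.continuous_ofReal.tendsto _).comp (tendsto_pois hf hP he he0 t)

end meas

theorem im_G00 {V : Cfg d} {m : Measure ℝ} [IsFiniteMeasure m]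
    (hm : ∀ z : ℂ, z.im ≠ 0 → G V z (del 0) 0 = ∫ E : ℝ, 1 / ((E : ℂ) - z) ∂m) {ε : ℝ}
    (hε : 0 < ε) (E : ℝ) : (G V (zz ε E) (del 0) 0).im = ∫ t, pk ε (t - E) ∂m := by
  have hz : (zz ε E).im ≠ 0 := by simpa using hε.ne'
  rw [hm _ hz]
  have hint : Integrable (fun t : ℝ => 1 / ((t : ℂ) - zz ε E)) m := by
    refine Integrable.of_bound (C := |(zz ε E).im|⁻¹) ?_ (Eventually.of_forall fun t => ?_)
    · have : Continuous fun t : ℝ => 1 / ((t : ℂ) - zz ε E) :=
        continuous_const.div (by fun_prop) fun t => real_sub_ne hz t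
      exact this.aestronglyMeasurable
    · rw [one_div]
      exact norm_inv_le hz t
  have h2 : (∫ t : ℝ, 1 / ((t : ℂ) - zz ε E) ∂m).im =
      ∫ t : ℝ, (1 / ((t : ℂ) - zz ε E)).im ∂m := (integral_im hint).symm
  rw [h2]
  congr 1
  funext t
  rw [one_div, Complex.inv_im, Complex.normSq_apply]
  simp only [Complex.sub_re, Complex.ofReal_re, zz_re, Complex.sub_im, Complex.ofReal_im, zz_im]
  unfold pk
  have h3 : (t - E) * (t - E) + (0 - ε) * (0 - ε) = (t - E) ^ 2 + ε ^ 2 := by ring
  rw [h3]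
  ring

end Pool.Agent.Helper14.QE
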