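import Pool.Agent.Helper14_QE.AC2

/-!
# Module AC2: the energy resolution of a conserved observable
-/

set_option autoImplicit false

open scoped InnerProductSpace ComplexConjugate Topology ENNReal
open MeasureTheory Filter

noncomputable section

namespace Pool.Agent.Helper14.QE

open Pool.Agent.QE Pool.Agent.Anderson Pool.Agent.Helper54.Bal Pool.Agent.Helper35.AC

variable {d : ℕ}

/-- pointwise convergence -/
theorem F_tendsto {V : Cfg d} {A : Op d} {c : ℝ → ℂ} {e : ℕ → ℝ} (he : ∀ k, 0 < e k)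
    {g₀ : ℝ → ℝ} {q : RF} {E : ℝ}
    (h1 : Tendsto (fun k => Real.sqrt (e k) *
      ‖A (G V (zz (e k) E) (del 0)) - c E • G V (zz (e k) E) (del 0)‖) atTop (𝓝 0))
    (h2 : Tendsto (fun k => (G V (zz (e k) E) (del 0) 0).im) atTop (𝓝 (g₀ E))) :
    0 ≤ g₀ E ∧ Tendsto (fun k => e k * ‖A (G V (zz (e k) E) (del 0)) -
      q.ev E • G V (zz (e k) E) (del 0)‖ ^ 2) atTop (𝓝 (‖c E - q.ev E‖ ^ 2 * g₀ E)) := by
  have hz : ∀ k, (zz (e k) E).im ≠ 0 := fun k => by simpa using (he k).ne'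
  set g : ℕ → L2 d := fun k => G V (zz (e k) E) (del 0) with hg
  have him : ∀ k, (G V (zz (e k) E) (del 0) 0).im = e k * ‖g k‖ ^ 2 := by
    intro k
    rw [im_G_del (hz k), zz_im]
  simp only [him] at h2
  have hg0 : 0 ≤ g₀ E := ge_of_tendsto' h2 fun k => mul_nonneg (he k).le (sq_nonneg _)
  refine ⟨hg0, ?_⟩
  have hβ : Tendsto (fun k => ‖c E - q.ev E‖ * Real.sqrt (e k * ‖g k‖ ^ 2)) atTop
      (𝓝 (‖c E - q.ev E‖ * Real.sqrt (g₀ E))) :=
    ((Real.continuous_sqrt.tendsto _).comp h2).const_mul _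
  have hβ' : ∀ k, ‖c E - q.ev E‖ * Real.sqrt (e k * ‖g k‖ ^ 2) =
      Real.sqrt (e k) * ‖c E • g k - q.ev E • g k‖ := by
    intro k
    rw [← sub_smul, norm_smul, Real.sqrt_mul (he k).le, Real.sqrt_sq (norm_nonneg _)]
    ring
  have hdiff : Tendsto (fun k => Real.sqrt (e k) * ‖A (g k) - q.ev E • g k‖ -
      ‖c E - q.ev E‖ * Real.sqrt (e k * ‖g k‖ ^ 2)) atTop (𝓝 0) := by
    refine squeeze_zero_norm (fun k => ?_) h1
    rw [hβ', ← mul_sub, Real.norm_eq_abs, abs_mul, abs_of_nonneg (Real.sqrt_nonneg _)]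
    apply mul_le_mul_of_nonneg_left _ (Real.sqrt_nonneg _)
    refine (abs_norm_sub_norm_le _ _).trans (le_of_eq ?_)
    congr 1
    abel
  have hα : Tendsto (fun k => Real.sqrt (e k) * ‖A (g k) - q.ev E • g k‖) atTop
      (𝓝 (‖c E - q.ev E‖ * Real.sqrt (g₀ E))) := by
    have := hdiff.add hβ
    simpa using this
  have hsq := hα.pow 2
  rw [mul_pow, Real.sq_sqrt hg0] at hsq
  refine hsq.congr fun k => ?_
  rw [mul_pow, Real.sq_sqrt (he k).le]

/-- the error in the functional calculus -/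
theorem chi_approx (V : Cfg d) (A : Op d)
    (hcomm : ∀ z : ℂ, z.im ≠ 0 → ∀ f : L2 d, A (G V z f) = G V z (A f)) (p q : RF) :
    ∃ (y0 M : ℝ) (W : ℝ → ℝ), 0 < y0 ∧ 0 ≤ M ∧ Integrable W ∧ (∀ E, 0 ≤ W E) ∧
      ∀ ε, 0 < ε → ε < y0 → ∀ (E : ℝ) (f : L2 d),
      ‖G V (zz ε E) (A (p.op V f) - q.op V (p.op V f)) -
        p.ev E • (A (G V (zz ε E) f) - q.ev E • G V (zz ε E) f)‖ ^ 2 ≤
        M * (ε ^ 2 * ‖G V (zz ε E) f‖ ^ 2 + W E * ‖f‖ ^ 2) := by
  obtain ⟨P, hP0, hP⟩ := rf_bound p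
  obtain ⟨y1, K1, W1, hy1, hK1, hW1, hW10, h1⟩ := rf_approx V p
  obtain ⟨y2, K2, W2, hy2, hK2, hW2, hW20, h2⟩ := rf_approx V q
  set N : ℝ := ‖A - q.op V‖ with hN
  have hN0 : 0 ≤ N := norm_nonneg _
  refine ⟨min y1 y2, 2 * (P ^ 2 * K2) + 2 * (N ^ 2 * K1), fun E => W1 E + W2 E,
    lt_min hy1 hy2, by positivity, hW1.add hW2, fun E => add_nonneg (hW10 E) (hW20 E), ?_⟩
  intro ε hε hεy E f
  have hz : (zz ε E).im ≠ 0 := by simpa using hε.ne'
  set z := zz ε E with hzd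
  set g := G V z f with hg
  have a1 := h1 ε hε (hεy.trans_le (min_le_left _ _)) E f
  have a2 := h2 ε hε (hεy.trans_le (min_le_right _ _)) E f
  rw [← hzd, ← hg] at a1 a2
  set e1 := p.op V g - p.ev E • g with he1
  set e2 := q.op V g - q.ev E • g with he2
  have key : G V z (A (p.op V f) - q.op V (p.op V f)) - p.ev E • (A g - q.ev E • g) =
      (A - q.op V) e1 - p.ev E • e2 := by
    have b1 : G V z (A (p.op V f)) = A (p.op V g) := by
      rw [← hcomm z hz, ← op_comm V p hz]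
    have b2 : G V z (q.op V (p.op V f)) = q.op V (p.op V g) := by
      rw [← op_comm V q hz, ← op_comm V p hz]
    rw [map_sub, b1, b2]
    have b3 : p.op V g = e1 + p.ev E • g := by rw [he1]; abel
    have b4 : q.op V g = e2 + q.ev E • g := by rw [he2]; abel
    rw [b3, map_add, map_add, map_smul, map_smul, b4, ContinuousLinearMap.sub_apply]
    simp only [smul_sub, smul_add]
    abel
  rw [key]
  have c1 : ‖(A - q.op V) e1‖ ≤ N * ‖e1‖ := ContinuousLinearMap.le_opNorm _ _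
  have c2 : ‖p.ev E • e2‖ ≤ P * ‖e2‖ := by
    rw [norm_smul]
    exact mul_le_mul_of_nonneg_right (hP E) (norm_nonneg _)
  have c3 : ‖(A - q.op V) e1 - p.ev E • e2‖ ≤ N * ‖e1‖ + P * ‖e2‖ :=
    (norm_sub_le _ _).trans (add_le_add c1 c2)
  have hf2 : 0 ≤ ‖f‖ ^ 2 := sq_nonneg _
  have d1 : 0 ≤ W1 E * ‖f‖ ^ 2 := mul_nonneg (hW10 E) hf2
  have d2 : 0 ≤ W2 E * ‖f‖ ^ 2 := mul_nonneg (hW20 E) hf2
  have d3 : 0 ≤ ε ^ 2 * ‖g‖ ^ 2 := by positivity
  have n1 : N ^ 2 * ‖e1‖ ^ 2 ≤ N ^ 2 * (K1 * (ε ^ 2 * ‖g‖ ^ 2 + (W1 E + W2 E) * ‖f‖ ^ 2)) := by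
    apply mul_le_mul_of_nonneg_left _ (sq_nonneg _)
    refine a1.trans (mul_le_mul_of_nonneg_left ?_ hK1)
    rw [add_mul]
    linarith
  have n2 : P ^ 2 * ‖e2‖ ^ 2 ≤ P ^ 2 * (K2 * (ε ^ 2 * ‖g‖ ^ 2 + (W1 E + W2 E) * ‖f‖ ^ 2)) := by
    apply mul_le_mul_of_nonneg_left _ (sq_nonneg _)
    refine a2.trans (mul_le_mul_of_nonneg_left ?_ hK2)
    rw [add_mul]
    linarith
  calc ‖(A - q.op V) e1 - p.ev E • e2‖ ^ 2 ≤ (N * ‖e1‖ + P * ‖e2‖) ^ 2 := by gcongr
    _ ≤ 2 * (N ^ 2 * ‖e1‖ ^ 2) + 2 * (P ^ 2 * ‖e2‖ ^ 2) := by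
        nlinarith [sq_nonneg (N * ‖e1‖ - P * ‖e2‖)]
    _ ≤ 2 * (N ^ 2 * (K1 * (ε ^ 2 * ‖g‖ ^ 2 + (W1 E + W2 E) * ‖f‖ ^ 2))) +
        2 * (P ^ 2 * (K2 * (ε ^ 2 * ‖g‖ ^ 2 + (W1 E + W2 E) * ‖f‖ ^ 2))) := by linarith
    _ = _ := by ring

theorem ac2 : AC2Statement := by
  intro d V A hcomm C hC c hc hcC e he he0 hae g₀ hg₀ hg₀lim m hm hmz p q Q hQ
  haveI := hm
  have hD := isRes_G V
  have hC0 : 0 ≤ C := (norm_nonneg _).trans hC
  have hQ0 : 0 ≤ Q := (norm_nonneg _).trans (hQ 0)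
  obtain ⟨P, hP0, hP⟩ := rf_bound p
  set P2 : ℝ → ℝ := fun E => ‖p.ev E‖ ^ 2 with hP2
  have hP2c : Continuous P2 := (rf_continuous p).norm.pow 2
  have hP20 : ∀ E, 0 ≤ P2 E := fun E => sq_nonneg _
  have hP2le : ∀ E, P2 E ≤ P ^ 2 := fun E => by
    simp only [hP2]
    have := hP E
    gcongr
  have hP2b : ∀ t, |P2 t| ≤ P ^ 2 := fun t => by rw [abs_of_nonneg (hP20 t)]; exact hP2le t
  set KK : ℝ := (C + Q) ^ 2 with hKK
  have hKK0 : 0 ≤ KK := sq_nonneg _
  set χ : L2 d := A (p.op V (del 0)) - q.op V (p.op V (del 0)) with hχ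
  set g : ℕ → ℝ → L2 d := fun k E => G V (zz (e k) E) (del 0) with hg
  have hz : ∀ k E, (zz (e k) E).im ≠ 0 := fun k E => by simpa using (he k).ne'
  have hgc : ∀ k, Continuous (g k) := fun k => hD.cont_line (he k).ne' _
  set F : ℕ → ℝ → ℝ := fun k E => e k * ‖A (g k E) - q.ev E • g k E‖ ^ 2 with hF
  have hFc : ∀ k, Continuous (F k) := fun k =>
    continuous_const.mul (((A.continuous.comp (hgc k)).sub
      ((rf_continuous q).smul (hgc k))).norm.pow 2)
  have hF0 : ∀ k E, 0 ≤ F k E := fun k E => mul_nonneg (he k).le (sq_nonneg _)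
  set ρ := dens0 m with hρ
  have hρm : Measurable ρ := measurable_dens0 m
  have hρ0 : ∀ t, 0 ≤ ρ t := dens0_nonneg m
  have hρi : Integrable ρ := integrable_dens0 m
  have him : ∀ k E, e k * ‖g k E‖ ^ 2 = sPo m (e k) E + Pr ρ (e k) E := by
    intro k E
    have h1 := im_G_del (V := V) (hz k E)
    rw [zz_im] at h1
    rw [← split m (he k) E, ← im_G00 hmz (he k) E, h1]
  have hFle : ∀ k E, F k E ≤ KK * (sPo m (e k) E + Pr ρ (e k) E) := by
    intro k E
    rw [← him]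
    simp only [hF]
    have h1 : ‖A (g k E) - q.ev E • g k E‖ ≤ (C + Q) * ‖g k E‖ := by
      refine (norm_sub_le _ _).trans ?_
      rw [norm_smul, add_mul]
      refine add_le_add ((A.le_opNorm _).trans ?_) ?_
      · exact mul_le_mul_of_nonneg_right hC (norm_nonneg _)
      · exact mul_le_mul_of_nonneg_right (hQ E) (norm_nonneg _)
    calc e k * ‖A (g k E) - q.ev E • g k E‖ ^ 2 ≤ e k * ((C + Q) * ‖g k E‖) ^ 2 := by
          have := (he k).le
          gcongr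
      _ = _ := by rw [hKK]; ring
  -- the three parts
  set T1 : ℕ → ℝ≥0∞ := fun k => ∫⁻ E, ENNReal.ofReal (P2 E * min (F k E) (KK * Real.pi * ρ E))
    with hT1
  set T2 : ℕ → ℝ≥0∞ := fun k => ENNReal.ofReal (P ^ 2 * KK) *
    ∫⁻ E, ‖Pr ρ (e k) E - Real.pi * ρ E‖ₑ with hT2
  set T3 : ℕ → ℝ≥0∞ := fun k => ENNReal.ofReal KK *
    ∫⁻ E, ENNReal.ofReal (P2 E * sPo m (e k) E) with hT3
  have hpt : ∀ k E, P2 E * F k E ≤ P2 E * min (F k E) (KK * Real.pi * ρ E) +
      (P ^ 2 * KK) * |Pr ρ (e k) E - Real.pi * ρ E| + KK * (P2 E * sPo m (e k) E) := by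
    intro k E
    have s0 := sPo_nonneg m (he k) E
    have h2 : 0 ≤ KK * (P2 E * sPo m (e k) E) := by
      have := hP20 E
      positivity
    have h3 : 0 ≤ (P ^ 2 * KK) * |Pr ρ (e k) E - Real.pi * ρ E| := by positivity
    rcases le_total (F k E) (KK * Real.pi * ρ E) with h | h
    · rw [min_eq_left h]
      linarith
    · rw [min_eq_right h]
      have h4 := hFle k E
      have h5 : Pr ρ (e k) E ≤ Real.pi * ρ E + |Pr ρ (e k) E - Real.pi * ρ E| := by
        have := le_abs_self (Pr ρ (e k) E - Real.pi * ρ E)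
        linarith
      have h6 : F k E ≤ KK * Real.pi * ρ E + KK * |Pr ρ (e k) E - Real.pi * ρ E| +
          KK * sPo m (e k) E := by
        have := mul_le_mul_of_nonneg_left h5 hKK0
        nlinarith
      have h7 := mul_le_mul_of_nonneg_left h6 (hP20 E)
      have h8 : P2 E * (KK * |Pr ρ (e k) E - Real.pi * ρ E|) ≤
          (P ^ 2 * KK) * |Pr ρ (e k) E - Real.pi * ρ E| := by
        rw [← mul_assoc]
        apply mul_le_mul_of_nonneg_right _ (abs_nonneg _)
        exact mul_le_mul_of_nonneg_right (hP2le E) hKK0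
      nlinarith
  have hT : ∀ k, ∫⁻ E, ENNReal.ofReal (P2 E * F k E) ≤ T1 k + T2 k + T3 k := by
    intro k
    have hm1 : Measurable fun E => ENNReal.ofReal (P2 E * min (F k E) (KK * Real.pi * ρ E)) :=
      (hP2c.measurable.mul ((hFc k).measurable.min (hρm.const_mul _))).ennreal_ofReal
    have hm2 : Measurable fun E => ENNReal.ofReal (P ^ 2 * KK) *
        ‖Pr ρ (e k) E - Real.pi * ρ E‖ₑ :=
      (((measurable_Pr hρm (e k)).sub (hρm.const_mul _)).enorm).const_mul _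
    have hle : ∀ E, ENNReal.ofReal (P2 E * F k E) ≤
        ENNReal.ofReal (P2 E * min (F k E) (KK * Real.pi * ρ E)) +
        ENNReal.ofReal (P ^ 2 * KK) * ‖Pr ρ (e k) E - Real.pi * ρ E‖ₑ +
        ENNReal.ofReal KK * ENNReal.ofReal (P2 E * sPo m (e k) E) := by
      intro E
      have b1 : 0 ≤ P2 E * min (F k E) (KK * Real.pi * ρ E) := by
        refine mul_nonneg (hP20 E) (le_min (hF0 k E) ?_)
        have := hρ0 E
        positivity
      have b2 : 0 ≤ (P ^ 2 * KK) * |Pr ρ (e k) E - Real.pi * ρ E| := by positivity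
      have b3 : 0 ≤ KK * (P2 E * sPo m (e k) E) := by
        have := hP20 E
        have := sPo_nonneg m (he k) E
        positivity
      refine (ENNReal.ofReal_le_ofReal (hpt k E)).trans (le_of_eq ?_)
      rw [ENNReal.ofReal_add (by positivity) b3, ENNReal.ofReal_add b1 b2,
        ENNReal.ofReal_mul (p := P ^ 2 * KK) (by positivity), ENNReal.ofReal_mul (p := KK) hKK0,
        ← Real.norm_eq_abs, ofReal_norm_eq_enorm]
    have hm12 : Measurable fun E => ENNReal.ofReal (P2 E * min (F k E) (KK * Real.pi * ρ E)) +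
        ENNReal.ofReal (P ^ 2 * KK) * ‖Pr ρ (e k) E - Real.pi * ρ E‖ₑ := hm1.add hm2
    refine (lintegral_mono hle).trans (le_of_eq ?_)
    rw [lintegral_add_left hm12, lintegral_add_left hm1,
      lintegral_const_mul' _ _ ENNReal.ofReal_ne_top, lintegral_const_mul' _ _ ENNReal.ofReal_ne_top]
  -- limits of the three parts
  have hL1 : Tendsto T1 atTop (𝓝 (∫⁻ E, ENNReal.ofReal (P2 E *
      min (‖c E - q.ev E‖ ^ 2 * g₀ E) (KK * Real.pi * ρ E)))) := by
    simp only [hT1]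
    refine tendsto_lintegral_of_dominated_convergence
      (fun E => ENNReal.ofReal (P ^ 2 * (KK * Real.pi * ρ E))) ?_ ?_ ?_ ?_
    · intro k
      exact (hP2c.measurable.mul ((hFc k).measurable.min (hρm.const_mul _))).ennreal_ofReal
    · intro k
      refine Eventually.of_forall fun E => ENNReal.ofReal_le_ofReal ?_
      have h0 : 0 ≤ KK * Real.pi * ρ E := by
        have := hρ0 E
        positivity
      exact mul_le_mul (hP2le E) (min_le_right _ _) (le_min (hF0 k E) h0) (sq_nonneg _)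
    · have hi : Integrable fun E => P ^ 2 * (KK * Real.pi * ρ E) := (hρi.const_mul _).const_mul _
      have := hi.2
      rw [hasFiniteIntegral_iff_ofReal] at this
      · exact this.ne
      · refine Eventually.of_forall fun E => ?_
        have := hρ0 E
        simp only [Pi.zero_apply]
        positivity
    · filter_upwards [hae, hg₀lim] with E hE1 hE2
      refine (ENNReal.continuous_ofReal.tendsto _).comp ?_
      exact ((F_tendsto he hE1 hE2).2.min tendsto_const_nhds).const_mul _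
  have hL2 : Tendsto T2 atTop (𝓝 0) := by
    simp only [hT2]
    have h1 : Tendsto e atTop (𝓝[>] 0) :=
      tendsto_nhdsWithin_iff.2 ⟨he0, Eventually.of_forall he⟩
    have h2 := (poisson_L1 hρi).comp h1
    have h3 := ENNReal.Tendsto.const_mul (a := ENNReal.ofReal (P ^ 2 * KK)) h2
      (Or.inr ENNReal.ofReal_ne_top)
    rw [mul_zero] at h3
    exact h3
  have hL3 : Tendsto T3 atTop (𝓝 (ENNReal.ofReal KK * (ENNReal.ofReal Real.pi *
      ∫⁻ t, ENNReal.ofReal (P2 t) ∂(m.singularPart volume)))) := by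
    simp only [hT3]
    exact ENNReal.Tendsto.const_mul (sing_tendsto m hP2c hP20 hP2b he he0)
      (Or.inr ENNReal.ofReal_ne_top)
  -- the error term
  obtain ⟨y0, M, W, hy0, hM0, hWi, hW0, herr⟩ := chi_approx V A hcomm p q
  set R : ℕ → ℝ := fun k => M * (e k ^ 2 * (Real.pi * ‖(del 0 : L2 d)‖ ^ 2) +
    e k * ((∫ E, W E) * ‖(del 0 : L2 d)‖ ^ 2)) with hR
  have hRlim : Tendsto R atTop (𝓝 0) := by
    have h1 : Tendsto R atTop (𝓝 (M * (0 ^ 2 * (Real.pi * ‖(del 0 : L2 d)‖ ^ 2) +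
        0 * ((∫ E, W E) * ‖(del 0 : L2 d)‖ ^ 2)))) :=
      (((he0.pow 2).mul_const _).add (he0.mul_const _)).const_mul _
    simpa using h1
  have hplanch : ∀ k, ENNReal.ofReal (Real.pi * ‖χ‖ ^ 2) =
      ∫⁻ E, ENNReal.ofReal (e k * ‖G V (zz (e k) E) χ‖ ^ 2) := by
    intro k
    rw [← ofReal_integral_eq_lintegral_ofReal ((hD.integrable_sq (he k) χ).const_mul _)
      (Eventually.of_forall fun E => mul_nonneg (he k).le (sq_nonneg _)), integral_const_mul,
      hD.integral_sq (he k)]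
    have := (he k).ne'
    congr 1
    field_simp
  have hmain : ∀ θ : ℝ, 0 < θ → ∀ᶠ k in atTop, ENNReal.ofReal (Real.pi * ‖χ‖ ^ 2) ≤
      ENNReal.ofReal (1 + θ) * (T1 k + T2 k + T3 k) +
        ENNReal.ofReal (1 + θ⁻¹) * ENNReal.ofReal (R k) := by
    intro θ hθ
    filter_upwards [he0.eventually (Iio_mem_nhds hy0)] with k hk
    rw [hplanch k]
    set err : ℝ → ℝ := fun E => M * (e k ^ 2 * (e k * ‖g k E‖ ^ 2) +
      e k * (W E * ‖(del 0 : L2 d)‖ ^ 2)) with herrdef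
    have hgi : Integrable fun E => e k * ‖g k E‖ ^ 2 := (hD.integrable_sq (he k) _).const_mul _
    have i1 : Integrable fun E => e k ^ 2 * (e k * ‖g k E‖ ^ 2) := hgi.const_mul _
    have i2 : Integrable fun E => e k * (W E * ‖(del 0 : L2 d)‖ ^ 2) :=
      (hWi.mul_const _).const_mul _
    have hei : Integrable err := (i1.add i2).const_mul _
    have he_int : ∫ E, err E = R k := by
      simp only [herrdef, hR]
      rw [integral_const_mul, integral_add i1 i2, integral_const_mul, integral_const_mul,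
        integral_const_mul, integral_mul_const, hD.integral_sq (he k)]
      have := (he k).ne'
      field_simp
    have herr0 : ∀ E, 0 ≤ err E := by
      intro E
      have := hW0 E
      have := (he k).le
      simp only [herrdef]
      positivity
    have hptw : ∀ E, e k * ‖G V (zz (e k) E) χ‖ ^ 2 ≤
        (1 + θ) * (P2 E * F k E) + (1 + θ⁻¹) * err E := by
      intro E
      have h1 := herr (e k) (he k) hk E (del 0)
      rw [← hχ] at h1
      set a := p.ev E • (A (G V (zz (e k) E) (del 0)) - q.ev E • G V (zz (e k) E) (del 0)) with ha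
      set u := G V (zz (e k) E) χ with hu
      have h2 : ‖u‖ ≤ ‖a‖ + ‖u - a‖ := by
        have := norm_add_le a (u - a)
        rwa [add_sub_cancel] at this
      have h3 : ‖u‖ ^ 2 ≤ (1 + θ) * ‖a‖ ^ 2 + (1 + θ⁻¹) * ‖u - a‖ ^ 2 := by
        have h4 : ‖u‖ ^ 2 ≤ (‖a‖ + ‖u - a‖) ^ 2 := by gcongr
        have h5 : 0 ≤ θ⁻¹ * (θ * ‖a‖ - ‖u - a‖) ^ 2 := by positivity
        have h6 : θ⁻¹ * (θ * ‖a‖ - ‖u - a‖) ^ 2 =
            θ * ‖a‖ ^ 2 - 2 * ‖a‖ * ‖u - a‖ + θ⁻¹ * ‖u - a‖ ^ 2 := by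
          field_simp
          ring
        nlinarith
      have h7 : e k * ‖a‖ ^ 2 = P2 E * F k E := by
        rw [ha, norm_smul]
        simp only [hP2, hF, hg]
        ring
      have h8 : e k * ‖u - a‖ ^ 2 ≤ err E := by
        refine (mul_le_mul_of_nonneg_left h1 (he k).le).trans (le_of_eq ?_)
        simp only [herrdef, hg]
        ring
      have hθ' : 0 ≤ 1 + θ⁻¹ := by positivity
      calc e k * ‖u‖ ^ 2 ≤ e k * ((1 + θ) * ‖a‖ ^ 2 + (1 + θ⁻¹) * ‖u - a‖ ^ 2) :=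
            mul_le_mul_of_nonneg_left h3 (he k).le
        _ = (1 + θ) * (e k * ‖a‖ ^ 2) + (1 + θ⁻¹) * (e k * ‖u - a‖ ^ 2) := by ring
        _ ≤ _ := by
            rw [h7]
            have := mul_le_mul_of_nonneg_left h8 hθ'
            linarith
    have hle : ∀ E, ENNReal.ofReal (e k * ‖G V (zz (e k) E) χ‖ ^ 2) ≤
        ENNReal.ofReal (1 + θ) * ENNReal.ofReal (P2 E * F k E) +
          ENNReal.ofReal (1 + θ⁻¹) * ENNReal.ofReal (err E) := by
      intro E
      refine (ENNReal.ofReal_le_ofReal (hptw E)).trans (le_of_eq ?_)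
      rw [ENNReal.ofReal_add, ENNReal.ofReal_mul (p := 1 + θ) (by positivity),
        ENNReal.ofReal_mul (p := 1 + θ⁻¹) (by positivity)]
      · have := hP20 E
        have := hF0 k E
        positivity
      · have := herr0 E
        positivity
    have hmeas : Measurable fun E => ENNReal.ofReal (1 + θ) * ENNReal.ofReal (P2 E * F k E) :=
      ((hP2c.mul (hFc k)).measurable.ennreal_ofReal).const_mul _
    refine (lintegral_mono hle).trans ?_
    rw [lintegral_add_left hmeas, lintegral_const_mul' _ _ ENNReal.ofReal_ne_top,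
      lintegral_const_mul' _ _ ENNReal.ofReal_ne_top,
      ← ofReal_integral_eq_lintegral_ofReal hei (Eventually.of_forall herr0), he_int]
    gcongr
    exact hT k
  set S : ℝ≥0∞ := ∫⁻ t, ENNReal.ofReal (P2 t) ∂(m.singularPart volume) with hS
  set I1 : ℝ≥0∞ := ∫⁻ E, ENNReal.ofReal (P2 E *
      min (‖c E - q.ev E‖ ^ 2 * g₀ E) (KK * Real.pi * ρ E)) with hI1
  have hlimθ : ∀ θ : ℝ, 0 < θ → ENNReal.ofReal (Real.pi * ‖χ‖ ^ 2) ≤
      ENNReal.ofReal (1 + θ) * (I1 + ENNReal.ofReal KK * (ENNReal.ofReal Real.pi * S)) := by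
    intro θ hθ
    have h1 : Tendsto (fun k => ENNReal.ofReal (1 + θ) * (T1 k + T2 k + T3 k) +
        ENNReal.ofReal (1 + θ⁻¹) * ENNReal.ofReal (R k)) atTop
        (𝓝 (ENNReal.ofReal (1 + θ) * (I1 + 0 + ENNReal.ofReal KK * (ENNReal.ofReal Real.pi * S)) +
          ENNReal.ofReal (1 + θ⁻¹) * ENNReal.ofReal 0)) := by
      refine Tendsto.add ?_ ?_
      · exact ENNReal.Tendsto.const_mul ((hL1.add hL2).add hL3) (Or.inr ENNReal.ofReal_ne_top)
      · exact ENNReal.Tendsto.const_mul ((ENNReal.continuous_ofReal.tendsto _).comp hRlim)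
          (Or.inr ENNReal.ofReal_ne_top)
    rw [ENNReal.ofReal_zero, mul_zero, add_zero, add_zero] at h1
    exact ge_of_tendsto h1 (hmain θ hθ)
  have hlim : ENNReal.ofReal (Real.pi * ‖χ‖ ^ 2) ≤
      I1 + ENNReal.ofReal KK * (ENNReal.ofReal Real.pi * S) := by
    have h1 : Tendsto (fun n : ℕ => ENNReal.ofReal (1 + 1 / ((n : ℝ) + 1)) *
        (I1 + ENNReal.ofReal KK * (ENNReal.ofReal Real.pi * S))) atTop
        (𝓝 (ENNReal.ofReal (1 + 0) *
          (I1 + ENNReal.ofReal KK * (ENNReal.ofReal Real.pi * S)))) := by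
      refine ENNReal.Tendsto.mul_const ?_ (Or.inl (by simp))
      exact (ENNReal.continuous_ofReal.tendsto _).comp
        (tendsto_one_div_add_atTop_nhds_zero_nat.const_add 1)
    rw [add_zero, ENNReal.ofReal_one, one_mul] at h1
    exact ge_of_tendsto' h1 fun n => hlimθ _ (by positivity)
  -- conclusion
  have hI : I1 ≤ ENNReal.ofReal Real.pi * ∫⁻ E : ℝ, ENNReal.ofReal (‖p.ev E‖ ^ 2 *
      ‖c E - q.ev E‖ ^ 2 * (g₀ E / Real.pi)) := by
    rw [← lintegral_const_mul' _ _ ENNReal.ofReal_ne_top]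
    refine lintegral_mono fun E => ?_
    rw [← ENNReal.ofReal_mul Real.pi_pos.le]
    refine ENNReal.ofReal_le_ofReal ?_
    have h1 : Real.pi * (‖p.ev E‖ ^ 2 * ‖c E - q.ev E‖ ^ 2 * (g₀ E / Real.pi)) =
        P2 E * (‖c E - q.ev E‖ ^ 2 * g₀ E) := by
      simp only [hP2]
      field_simp
    rw [h1]
    exact mul_le_mul_of_nonneg_left (min_le_left _ _) (hP20 E)
  have hfin : ENNReal.ofReal Real.pi * ‖χ‖ₑ ^ 2 ≤ ENNReal.ofReal Real.pi *
      ((∫⁻ E : ℝ, ENNReal.ofReal (‖p.ev E‖ ^ 2 * ‖c E - q.ev E‖ ^ 2 * (g₀ E / Real.pi))) +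
        ENNReal.ofReal KK * S) := by
    have h1 : ENNReal.ofReal (Real.pi * ‖χ‖ ^ 2) = ENNReal.ofReal Real.pi * ‖χ‖ₑ ^ 2 := by
      rw [ENNReal.ofReal_mul Real.pi_pos.le, ENNReal.ofReal_pow (norm_nonneg _),
        ofReal_norm_eq_enorm]
    rw [← h1, mul_add]
    refine hlim.trans (add_le_add hI (le_of_eq ?_))
    ring
  rwa [ENNReal.mul_le_mul_iff_right (ENNReal.ofReal_pos.2 Real.pi_pos).ne'
    ENNReal.ofReal_ne_top] at hfin

end Pool.Agent.Helper14.QE
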