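import Pool.Agent.Helper54_QE.Defs2

/-!
# Module DENS: density of continuous functions
-/

set_option autoImplicit false

open scoped InnerProductSpace ComplexConjugate Topology ENNReal
open MeasureTheory Filter

noncomputable section

namespace Pool.Agent.Helper14.QE

open Pool.Agent.QE

/-- cut-off to the ball of radius `C` -/
def cutC (C : ℝ) (z : ℂ) : ℂ := ((C / max C ‖z‖ : ℝ) : ℂ) * z

theorem continuous_cutC {C : ℝ} (hC : 0 < C) : Continuous (cutC C) := by
  unfold cutC
  have h : Continuous fun z : ℂ => C / max C ‖z‖ := by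
    refine continuous_const.div (continuous_const.max continuous_norm) fun z => ?_
    have : 0 < max C ‖z‖ := lt_max_of_lt_left hC
    exact this.ne'
  exact (Complex.continuous_ofReal.comp h).mul continuous_id

theorem norm_cutC_le {C : ℝ} (hC : 0 < C) (z : ℂ) : ‖cutC C z‖ ≤ C := by
  unfold cutC
  have hm : 0 < max C ‖z‖ := lt_max_of_lt_left hC
  rw [norm_mul, Complex.norm_real, Real.norm_eq_abs, abs_of_nonneg (by positivity), div_mul_eq_mul_div,
    div_le_iff₀ hm]
  exact mul_le_mul_of_nonneg_left (le_max_right _ _) hC.le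

theorem norm_cutC_sub_le {C : ℝ} (hC : 0 < C) (z w : ℂ) (hw : ‖w‖ ≤ C) :
    ‖w - cutC C z‖ ≤ 2 * ‖w - z‖ := by
  have h1 : ‖z - cutC C z‖ ≤ ‖w - z‖ := by
    rcases le_total ‖z‖ C with h | h
    · have : cutC C z = z := by
        unfold cutC
        rw [max_eq_left h, div_self hC.ne', Complex.ofReal_one, one_mul]
      rw [this, sub_self, norm_zero]
      exact norm_nonneg _
    · have hz : 0 < ‖z‖ := hC.trans_le h
      have e : z - cutC C z = ((1 - C / ‖z‖ : ℝ) : ℂ) * z := by
        unfold cutC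
        rw [max_eq_right h]
        push_cast
        ring
      have h0 : 0 ≤ 1 - C / ‖z‖ := by
        rw [sub_nonneg, div_le_one hz]
        exact h
      rw [e, norm_mul, Complex.norm_real, Real.norm_eq_abs, abs_of_nonneg h0]
      have h2 : (1 - C / ‖z‖) * ‖z‖ = ‖z‖ - C := by
        field_simp
      rw [h2]
      have := norm_sub_norm_le z w
      rw [norm_sub_rev] at this
      linarith
  have e : w - cutC C z = (w - z) + (z - cutC C z) := by ring
  rw [e]
  refine (norm_add_le _ _).trans ?_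
  linarith

theorem dens : DensStatement := by
  intro ν _ c hc C hC0 hC δ hδ
  rcases hC0.eq_or_lt with h0 | hCpos
  · refine ⟨0, continuous_const, HasCompactSupport.zero, fun E => ?_, ?_⟩
    · simp [hC0]
    · have : ∀ E, c E = 0 := fun E => by
        have := hC E
        rw [← h0] at this
        exact norm_le_zero_iff.mp this
      simp [this]
  · have hmem : MemLp c 2 ν := MemLp.of_bound hc.aestronglyMeasurable C (Eventually.of_forall hC)
    obtain ⟨g, hgs, hgd, hgc, hgm⟩ := hmem.exists_hasCompactSupport_eLpNorm_sub_le (by norm_num)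
      (ε := ENNReal.ofReal (Real.sqrt δ / 2)) (by
        have := Real.sqrt_pos.mpr hδ
        exact (ENNReal.ofReal_pos.mpr (by positivity)).ne')
    have hcut0 : cutC C 0 = 0 := by simp [cutC]
    have hsupp : HasCompactSupport fun E => cutC C (g E) := hgs.comp_left hcut0
    refine ⟨fun E => cutC C (g E), (continuous_cutC hCpos).comp hgc,
      hsupp, fun E => norm_cutC_le hCpos _, ?_⟩
    have hpt : ∀ E, ‖c E - cutC C (g E)‖ₑ ^ 2 ≤ 4 * ‖(c - g) E‖ₑ ^ 2 := by
      intro E
      have h2 := norm_cutC_sub_le hCpos (g E) (c E) (hC E)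
      have h3 : ‖c E - cutC C (g E)‖ₑ ≤ 2 * ‖(c - g) E‖ₑ := by
        rw [← ofReal_norm_eq_enorm, ← ofReal_norm_eq_enorm]
        have : (2 : ℝ≥0∞) = ENNReal.ofReal 2 := by norm_num
        rw [this, ← ENNReal.ofReal_mul (by norm_num)]
        exact ENNReal.ofReal_le_ofReal h2
      calc ‖c E - cutC C (g E)‖ₑ ^ 2 ≤ (2 * ‖(c - g) E‖ₑ) ^ 2 := pow_le_pow_left' h3 2
        _ = 4 * ‖(c - g) E‖ₑ ^ 2 := by rw [mul_pow]; norm_num
    have h1 : ∫⁻ E, ‖c E - cutC C (g E)‖ₑ ^ 2 ∂ν ≤ 4 * ∫⁻ E, ‖(c - g) E‖ₑ ^ 2 ∂ν := by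
      have h2 := lintegral_const_mul' (μ := ν) (4 : ℝ≥0∞) (fun E => ‖(c - g) E‖ₑ ^ 2)
        (by norm_num)
      exact (lintegral_mono hpt).trans h2.le
    have h4 : ∫⁻ E, ‖(c - g) E‖ₑ ^ 2 ∂ν ≤ ENNReal.ofReal (δ / 4) := by
      have h5 : eLpNorm (c - g) 2 ν ^ 2 = ∫⁻ E, ‖(c - g) E‖ₑ ^ 2 ∂ν := by
        rw [eLpNorm_eq_lintegral_rpow_enorm_toReal (by norm_num) (by norm_num)]
        simp only [ENNReal.toReal_ofNat, ENNReal.rpow_ofNat]
        rw [← ENNReal.rpow_natCast, ← ENNReal.rpow_mul]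
        norm_num
      rw [← h5]
      calc eLpNorm (c - g) 2 ν ^ 2 ≤ (ENNReal.ofReal (Real.sqrt δ / 2)) ^ 2 := by gcongr
        _ = ENNReal.ofReal (δ / 4) := by
          rw [← ENNReal.ofReal_pow (by positivity), div_pow, Real.sq_sqrt hδ.le]
          norm_num
    calc _ ≤ _ := h1
      _ ≤ 4 * ENNReal.ofReal (δ / 4) := by gcongr
      _ = ENNReal.ofReal δ := by
        have : (4 : ℝ≥0∞) = ENNReal.ofReal 4 := by norm_num
        rw [this, ← ENNReal.ofReal_mul (by norm_num)]
        congr 1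
        ring

end Pool.Agent.Helper14.QE
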