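import Pool.Agent.Helper54_QE.Defs2

/-!
# Module SW: density of rational functions
-/

set_option autoImplicit false

open scoped InnerProductSpace ComplexConjugate Topology ENNReal
open MeasureTheory Filter

noncomputable section

namespace Pool.Agent.Helper14.QE

open Pool.Agent.QE

/-- functions of the form `RF.ev` -/
def IsRF (f : ℝ → ℂ) : Prop := ∃ p : RF, ∀ E, p.ev E = f E

theorem isRF_zero : IsRF fun _ => 0 :=
  ⟨⟨0, fun k => k.elim0, fun k => k.elim0, fun k => k.elim0⟩, fun E => by simp [RF.ev]⟩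

theorem IsRF.add {f g : ℝ → ℂ} (hf : IsRF f) (hg : IsRF g) : IsRF fun E => f E + g E := by
  obtain ⟨p, hp⟩ := hf
  obtain ⟨q, hq⟩ := hg
  refine ⟨⟨p.n + q.n, Fin.append p.a q.a, Fin.append p.w q.w, ?_⟩, ?_⟩
  · intro k
    refine Fin.addCases (fun i => ?_) (fun i => ?_) k
    · rw [Fin.append_left]; exact p.hw i
    · rw [Fin.append_right]; exact q.hw i
  · intro E
    show _ = f E + g E
    rw [← hp, ← hq]
    unfold RF.ev
    simp only
    rw [Fin.sum_univ_add]
    congr 1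
    · exact Finset.sum_congr rfl fun i _ => by rw [Fin.append_left, Fin.append_left]
    · exact Finset.sum_congr rfl fun i _ => by rw [Fin.append_right, Fin.append_right]

theorem isRF_single (a w : ℂ) (hw : w.im ≠ 0) : IsRF fun E => a / ((E : ℂ) - w) :=
  ⟨⟨1, fun _ => a, fun _ => w, fun _ => hw⟩, fun E => by simp [RF.ev]⟩

theorem isRF_sum {ι : Type*} (s : Finset ι) (f : ι → ℝ → ℂ) (h : ∀ i ∈ s, IsRF (f i)) :
    IsRF fun E => ∑ i ∈ s, f i E := by
  classical
  induction s using Finset.induction_on with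
  | empty => simpa using isRF_zero
  | insert a s ha ih =>
    have h1 := (h a (Finset.mem_insert_self a s)).add
      (ih fun i hi => h i (Finset.mem_insert_of_mem hi))
    refine (congrArg IsRF ?_).mp h1
    funext E
    rw [Finset.sum_insert ha]

/-- the Poisson kernel (times `π`) -/
def pk (ε s : ℝ) : ℝ := ε / (s ^ 2 + ε ^ 2)

theorem isRF_pk {ε : ℝ} (hε : 0 < ε) (a : ℂ) (t : ℝ) :
    IsRF fun E => a * ((pk ε (t - E) : ℝ) : ℂ) := by
  have h1 := (isRF_single (a / (2 * Complex.I)) ((t : ℂ) + ε * Complex.I) (by simp [hε.ne'])).add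
    (isRF_single (-(a / (2 * Complex.I))) ((t : ℂ) - ε * Complex.I) (by simp [hε.ne']))
  refine (congrArg IsRF ?_).mp h1
  funext E
  unfold pk
  have n1 : (E : ℂ) - ((t : ℂ) + ε * Complex.I) ≠ 0 := by
    intro h
    have := congrArg Complex.im h
    simp at this
    exact hε.ne' this
  have n2 : (E : ℂ) - ((t : ℂ) - ε * Complex.I) ≠ 0 := by
    intro h
    have := congrArg Complex.im h
    simp at this
    exact hε.ne' this
  have e : (((t - E) ^ 2 + ε ^ 2 : ℝ) : ℂ) = ((E : ℂ) - ((t : ℂ) + ε * Complex.I)) *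
      ((E : ℂ) - ((t : ℂ) - ε * Complex.I)) := by
    push_cast
    have := Complex.I_sq
    linear_combination ((ε : ℂ) ^ 2) * this
  have hI : (2 * Complex.I) ≠ 0 := by simp
  rw [Complex.ofReal_div, e]
  have key : ((E : ℂ) - ((t : ℂ) - ε * Complex.I)) - ((E : ℂ) - ((t : ℂ) + ε * Complex.I)) =
      ε * (2 * Complex.I) := by ring
  generalize ((E : ℂ) - ((t : ℂ) - ε * Complex.I)) = Y at *
  generalize ((E : ℂ) - ((t : ℂ) + ε * Complex.I)) = X at *
  calc a / (2 * Complex.I) / X + -(a / (2 * Complex.I)) / Y =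
      a / (2 * Complex.I) * ((Y - X) / (X * Y)) := by
        field_simp
        ring
    _ = a * (ε / (X * Y)) := by
        rw [key]
        field_simp

theorem pk_nonneg {ε : ℝ} (hε : 0 < ε) (s : ℝ) : 0 ≤ pk ε s := by
  unfold pk; positivity

theorem pk_le {ε : ℝ} (hε : 0 < ε) (s : ℝ) : pk ε s ≤ ε⁻¹ := by
  unfold pk
  rw [div_le_iff₀ (by positivity)]
  have : ε⁻¹ * (s ^ 2 + ε ^ 2) = ε⁻¹ * s ^ 2 + ε := by field_simp
  rw [this]
  have : 0 ≤ ε⁻¹ * s ^ 2 := by positivity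
  linarith

theorem pk_lip {ε : ℝ} (hε : 0 < ε) (s u : ℝ) : |pk ε s - pk ε u| ≤ (ε ^ 2)⁻¹ * |s - u| := by
  unfold pk
  have hA : 0 < s ^ 2 + ε ^ 2 := by positivity
  have hB : 0 < u ^ 2 + ε ^ 2 := by positivity
  have e : ε / (s ^ 2 + ε ^ 2) - ε / (u ^ 2 + ε ^ 2) =
      (ε * (u + s) / ((s ^ 2 + ε ^ 2) * (u ^ 2 + ε ^ 2))) * (u - s) := by
    field_simp
    ring
  rw [e, abs_mul, abs_sub_comm s u]
  apply mul_le_mul_of_nonneg_right _ (abs_nonneg _)
  rw [abs_div, abs_mul, abs_of_pos hε, abs_of_pos (mul_pos hA hB), div_le_iff₀ (mul_pos hA hB)]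
  have h1 : |u + s| ≤ |u| + |s| := abs_add_le u s
  have h2 : ε * |s| ≤ (s ^ 2 + ε ^ 2) / 2 := by
    nlinarith [sq_nonneg (|s| - ε), sq_abs s]
  have h3 : ε * |u| ≤ (u ^ 2 + ε ^ 2) / 2 := by
    nlinarith [sq_nonneg (|u| - ε), sq_abs u]
  have h4 : ε ^ 2 ≤ s ^ 2 + ε ^ 2 := by nlinarith [sq_nonneg s]
  have h5 : ε ^ 2 ≤ u ^ 2 + ε ^ 2 := by nlinarith [sq_nonneg u]
  have h6 : (s ^ 2 + ε ^ 2) / 2 + (u ^ 2 + ε ^ 2) / 2 ≤
      (ε ^ 2)⁻¹ * ((s ^ 2 + ε ^ 2) * (u ^ 2 + ε ^ 2)) := by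
    rw [inv_mul_eq_div, le_div_iff₀ (by positivity)]
    set A := s ^ 2 + ε ^ 2
    set B := u ^ 2 + ε ^ 2
    nlinarith
  nlinarith

theorem integrable_K34 : Integrable fun s : ℝ => (1 + s ^ 2) ^ (-(3 / 4) : ℝ) := by
  have := integrable_rpow_neg_one_add_norm_sq (E := ℝ) (μ := volume) (r := 3 / 2)
    (by simp; norm_num)
  refine this.congr (Eventually.of_forall fun s => ?_)
  simp only [Real.norm_eq_abs, sq_abs]
  congr 1
  norm_num

/-- the Poisson integral converges uniformly -/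
theorem poisson_unif {h : ℝ → ℂ} (hc : Continuous h) (hs : HasCompactSupport h) {δ : ℝ}
    (hδ : 0 < δ) : ∃ ε : ℝ, 0 < ε ∧ ∀ E : ℝ,
      ‖(Real.pi : ℂ) * h E - ∫ t : ℝ, h t * ((pk ε (t - E) : ℝ) : ℂ)‖ ≤ δ := by
  obtain ⟨H, hH⟩ := hc.bounded_above_of_compact_support hs
  have hH0 : 0 ≤ H := (norm_nonneg _).trans (hH 0)
  have huc := hs.uniformContinuous_of_continuous hc
  rw [Metric.uniformContinuous_iff] at huc
  obtain ⟨η, hη, hη'⟩ := huc (δ / (2 * Real.pi)) (by positivity)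
  set J : ℝ := ∫ s : ℝ, (1 + s ^ 2) ^ (-(3 / 4) : ℝ) with hJ
  have hJ0 : 0 ≤ J := integral_nonneg fun s => by positivity
  -- choose ε
  set ε : ℝ := η * (δ / (2 * (2 * H * J + 1))) ^ 2 with hε
  have hε0 : 0 < ε := by positivity
  refine ⟨ε, hε0, fun E => ?_⟩
  have hr : Real.sqrt (ε / η) = δ / (2 * (2 * H * J + 1)) := by
    have h0 : ε / η = (δ / (2 * (2 * H * J + 1))) ^ 2 := by
      rw [hε, mul_div_assoc, mul_comm, div_mul_cancel₀ _ hη.ne']
    rw [h0]
    exact Real.sqrt_sq (by positivity)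
  -- substitution
  have hsub : ∫ t : ℝ, h t * ((pk ε (t - E) : ℝ) : ℂ) =
      ∫ s : ℝ, h (E + ε * s) * (((1 + s ^ 2)⁻¹ : ℝ) : ℂ) := by
    rw [← integral_add_left_eq_self (fun t => h t * ((pk ε (t - E) : ℝ) : ℂ)) E]
    have h1 := Measure.integral_comp_mul_left
      (fun y => h (E + y) * ((pk ε (E + y - E) : ℝ) : ℂ)) ε
    have h2 : ∫ y, h (E + y) * ((pk ε (E + y - E) : ℝ) : ℂ) =
        (ε : ℂ) * ∫ s, h (E + ε * s) * ((pk ε (E + ε * s - E) : ℝ) : ℂ) := by
      rw [h1, abs_of_pos (inv_pos.2 hε0), Complex.real_smul, ← mul_assoc, ← Complex.ofReal_mul,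
        mul_inv_cancel₀ hε0.ne', Complex.ofReal_one, one_mul]
    rw [h2, ← integral_const_mul]
    congr 1
    funext s
    have h4 : (1 + s ^ 2) ≠ 0 := by positivity
    have h5 : ε * pk ε (E + ε * s - E) = (1 + s ^ 2)⁻¹ := by
      unfold pk
      have h3 : (E + ε * s - E) ^ 2 + ε ^ 2 = ε ^ 2 * (1 + s ^ 2) := by ring
      rw [h3]
      field_simp
    rw [← h5]
    push_cast
    ring
  have hK : Integrable fun s : ℝ => (1 + s ^ 2)⁻¹ := integrable_inv_one_add_sq
  have hpi : (Real.pi : ℂ) * h E = ∫ s : ℝ, h E * (((1 + s ^ 2)⁻¹ : ℝ) : ℂ) := by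
    rw [integral_const_mul, integral_complex_ofReal, integral_univ_inv_one_add_sq]
    ring
  have hi1 : Integrable fun s : ℝ => h E * (((1 + s ^ 2)⁻¹ : ℝ) : ℂ) := hK.ofReal.const_mul _
  have hi2 : Integrable fun s : ℝ => h (E + ε * s) * (((1 + s ^ 2)⁻¹ : ℝ) : ℂ) := by
    refine hK.ofReal.bdd_mul (c := H) ?_ (Eventually.of_forall fun s => hH _)
    exact (hc.comp (by fun_prop)).aestronglyMeasurable
  rw [hsub, hpi, ← integral_sub hi1 hi2]
  have hb : ∀ s : ℝ, ‖h E * (((1 + s ^ 2)⁻¹ : ℝ) : ℂ) - h (E + ε * s) *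
      (((1 + s ^ 2)⁻¹ : ℝ) : ℂ)‖ ≤ δ / (2 * Real.pi) * (1 + s ^ 2)⁻¹ +
        2 * H * Real.sqrt (ε / η) * (1 + s ^ 2) ^ (-(3 / 4) : ℝ) := by
    intro s
    rw [← sub_mul, norm_mul, Complex.norm_real, Real.norm_eq_abs,
      abs_of_nonneg (by positivity : (0:ℝ) ≤ (1 + s ^ 2)⁻¹)]
    have hT : 0 ≤ 2 * H * Real.sqrt (ε / η) * (1 + s ^ 2) ^ (-(3 / 4) : ℝ) := by positivity
    have hT' : 0 ≤ δ / (2 * Real.pi) * (1 + s ^ 2)⁻¹ := by positivity
    by_cases hc1 : |ε * s| < η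
    · have h1 : ‖h E - h (E + ε * s)‖ ≤ δ / (2 * Real.pi) := by
        rw [← dist_eq_norm]
        refine (hη' ?_).le
        rw [dist_eq_norm, Real.norm_eq_abs]
        have : E - (E + ε * s) = -(ε * s) := by ring
        rw [this, abs_neg]
        exact hc1
      have h2 := mul_le_mul_of_nonneg_right h1 (by positivity : (0:ℝ) ≤ (1 + s ^ 2)⁻¹)
      linarith
    · rw [not_lt] at hc1
      have h1 : ‖h E - h (E + ε * s)‖ ≤ 2 * H := by
        refine (norm_sub_le _ _).trans ?_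
        linarith [hH E, hH (E + ε * s)]
      have h2 : 1 ≤ Real.sqrt (ε / η) * (1 + s ^ 2) ^ (1 / 4 : ℝ) := by
        have h3 : 1 ≤ ε / η * |s| := by
          rw [div_mul_eq_mul_div, le_div_iff₀ hη, one_mul]
          rwa [abs_mul, abs_of_pos hε0] at hc1
        have h4 : |s| ≤ (1 + s ^ 2) ^ (1 / 2 : ℝ) := by
          rw [← Real.sqrt_eq_rpow]
          apply Real.le_sqrt_of_sq_le
          rw [sq_abs]
          linarith
        have h5 : Real.sqrt ((1 + s ^ 2) ^ (1 / 2 : ℝ)) = (1 + s ^ 2) ^ (1 / 4 : ℝ) := by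
          rw [Real.sqrt_eq_rpow, ← Real.rpow_mul (by positivity)]
          norm_num
        rw [← h5, ← Real.sqrt_mul (by positivity)]
        apply Real.le_sqrt_of_sq_le
        rw [one_pow]
        exact h3.trans (mul_le_mul_of_nonneg_left h4 (by positivity))
      have h6 : (1 + s ^ 2)⁻¹ ≤ Real.sqrt (ε / η) * (1 + s ^ 2) ^ (-(3 / 4) : ℝ) := by
        have h7 : (1 + s ^ 2) ^ (-(3 / 4) : ℝ) = (1 + s ^ 2) ^ (1 / 4 : ℝ) * (1 + s ^ 2)⁻¹ := by
          rw [← Real.rpow_neg_one, ← Real.rpow_add (by positivity)]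
          norm_num
        rw [h7, ← mul_assoc]
        exact le_mul_of_one_le_left (by positivity) h2
      calc ‖h E - h (E + ε * s)‖ * (1 + s ^ 2)⁻¹
          ≤ 2 * H * (Real.sqrt (ε / η) * (1 + s ^ 2) ^ (-(3 / 4) : ℝ)) :=
            mul_le_mul h1 h6 (by positivity) (by positivity)
        _ = 2 * H * Real.sqrt (ε / η) * (1 + s ^ 2) ^ (-(3 / 4) : ℝ) := by ring
        _ ≤ _ := by linarith
  have hib : Integrable fun s : ℝ => δ / (2 * Real.pi) * (1 + s ^ 2)⁻¹ +
      2 * H * Real.sqrt (ε / η) * (1 + s ^ 2) ^ (-(3 / 4) : ℝ) :=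
    (hK.const_mul _).add (integrable_K34.const_mul _)
  refine (norm_integral_le_of_norm_le hib (Eventually.of_forall hb)).trans ?_
  rw [integral_add (hK.const_mul _) (integrable_K34.const_mul _), integral_const_mul,
    integral_const_mul, integral_univ_inv_one_add_sq, ← hJ, hr]
  have h1 : δ / (2 * Real.pi) * Real.pi = δ / 2 := by field_simp
  have h2 : 2 * H * (δ / (2 * (2 * H * J + 1))) * J ≤ δ / 2 := by
    have : 2 * H * (δ / (2 * (2 * H * J + 1))) * J = (δ / 2) * (2 * H * J / (2 * H * J + 1)) := by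
      field_simp
    rw [this]
    apply mul_le_of_le_one_right (by positivity)
    rw [div_le_one (by positivity)]
    linarith
  linarith

theorem sw : SWStatement := by
  intro h hc hs δ hδ
  obtain ⟨ε, hε, hP⟩ := poisson_unif hc hs (show 0 < δ / 2 by positivity)
  obtain ⟨H, hH⟩ := hc.bounded_above_of_compact_support hs
  have hH0 : 0 ≤ H := (norm_nonneg _).trans (hH 0)
  have huc := hs.uniformContinuous_of_continuous hc
  rw [Metric.uniformContinuous_iff] at huc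
  -- support
  obtain ⟨M, hM0, hM⟩ : ∃ M : ℝ, 0 < M ∧ ∀ t, h t ≠ 0 → |t| < M := by
    obtain ⟨M, hM⟩ := hs.isCompact.isBounded.subset_ball (0 : ℝ)
    refine ⟨max M 1, by positivity, fun t ht => ?_⟩
    have := hM (subset_tsupport h ht)
    rw [Metric.mem_ball, dist_zero_right, Real.norm_eq_abs] at this
    exact this.trans_le (le_max_left _ _)
  set κ : ℝ := δ / (8 * M) with hκ
  have hκ0 : 0 < κ := by positivity
  obtain ⟨η, hη, hη'⟩ := huc (κ * ε) (by positivity)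
  -- number of points
  obtain ⟨N, hN⟩ := exists_nat_gt (max (2 * M / η) (2 * M * H / (κ * ε ^ 2)))
  have hN1 : 2 * M / η < N := (le_max_left _ _).trans_lt hN
  have hN2 : 2 * M * H / (κ * ε ^ 2) < N := (le_max_right _ _).trans_lt hN
  have hNpos : (0 : ℝ) < N := lt_of_le_of_lt (by positivity) hN1
  set ℓ : ℝ := 2 * M / N with hℓ
  have hℓ0 : 0 < ℓ := by positivity
  have hℓη : ℓ < η := by
    rw [hℓ, div_lt_iff₀ hNpos]
    rw [div_lt_iff₀ hη] at hN1
    linarith
  have hℓH : ℓ * H ≤ κ * ε ^ 2 := by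
    rw [div_lt_iff₀ (by positivity)] at hN2
    rw [hℓ, div_mul_eq_mul_div, div_le_iff₀ hNpos]
    linarith
  set T : ℕ → ℝ := fun k => -M + ℓ * k with hT
  have hT0 : T 0 = -M := by simp [hT]
  have hTN : T N = M := by
    simp only [hT, hℓ]
    field_simp
    ring
  -- the rational function
  have hRF : IsRF fun E => ∑ k ∈ Finset.range N,
      ((Real.pi : ℂ)⁻¹ * ℓ * h (T k)) * ((pk ε (T k - E) : ℝ) : ℂ) :=
    isRF_sum _ _ fun k _ => isRF_pk hε _ _
  obtain ⟨p, hp⟩ := hRF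
  refine ⟨p, fun E => ?_⟩
  rw [hp]
  set F : ℝ → ℂ := fun t => h t * ((pk ε (t - E) : ℝ) : ℂ) with hF
  have hpkc : Continuous fun t => pk ε (t - E) := by
    unfold pk
    exact continuous_const.div (by fun_prop) fun t => by positivity
  have hFc : Continuous F := hc.mul (Complex.continuous_ofReal.comp hpkc)
  have hint : ∫ t : ℝ, F t = ∑ k ∈ Finset.range N, ∫ t in (T k)..(T (k + 1)), F t := by
    rw [intervalIntegral.sum_integral_adjacent_intervals
      (fun k _ => hFc.intervalIntegrable _ _), hT0, hTN,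
      intervalIntegral.integral_eq_integral_of_support_subset]
    intro t ht
    have h1 : h t ≠ 0 := by
      intro h0
      apply ht
      simp [hF, h0]
    have := abs_lt.mp (hM t h1)
    exact ⟨this.1, this.2.le⟩
  have hstep : ∀ k : ℕ, T (k + 1) - T k = ℓ := by
    intro k
    simp only [hT]
    push_cast
    ring
  have hcell : ∀ k : ℕ, ‖(∫ t in (T k)..(T (k + 1)), F t) - (ℓ : ℂ) * F (T k)‖ ≤
      (2 * κ) * ℓ := by
    intro k
    have h1 : (ℓ : ℂ) * F (T k) = ∫ _ in (T k)..(T (k + 1)), F (T k) := by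
      rw [intervalIntegral.integral_const, hstep, Complex.real_smul]
    rw [h1, ← intervalIntegral.integral_sub (hFc.intervalIntegrable _ _)
      (continuous_const.intervalIntegrable _ _)]
    have h2 : ∀ t ∈ Set.uIoc (T k) (T (k + 1)), ‖F t - F (T k)‖ ≤ 2 * κ := by
      intro t ht
      have hle : T k ≤ T (k + 1) := by linarith [hstep k]
      rw [Set.uIoc_of_le hle] at ht
      have hd : |t - T k| ≤ ℓ := by
        rw [abs_of_nonneg (by linarith [ht.1])]
        linarith [ht.2, hstep k]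
      have e : F t - F (T k) = (h t - h (T k)) * ((pk ε (t - E) : ℝ) : ℂ) +
          h (T k) * ((pk ε (t - E) - pk ε (T k - E) : ℝ) : ℂ) := by
        simp only [hF]
        push_cast
        ring
      rw [e]
      refine (norm_add_le _ _).trans ?_
      rw [norm_mul, norm_mul, Complex.norm_real, Complex.norm_real, Real.norm_eq_abs,
        Real.norm_eq_abs, abs_of_nonneg (pk_nonneg hε _)]
      have g1 : ‖h t - h (T k)‖ ≤ κ * ε := by
        rw [← dist_eq_norm]
        refine (hη' ?_).le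
        rw [Real.dist_eq]
        exact hd.trans_lt hℓη
      have g2 : ‖h t - h (T k)‖ * pk ε (t - E) ≤ κ := by
        calc _ ≤ κ * ε * ε⁻¹ := mul_le_mul g1 (pk_le hε _) (pk_nonneg hε _) (by positivity)
          _ = κ := by field_simp
      have g3 : |pk ε (t - E) - pk ε (T k - E)| ≤ (ε ^ 2)⁻¹ * ℓ := by
        refine (pk_lip hε _ _).trans ?_
        apply mul_le_mul_of_nonneg_left _ (by positivity)
        have : t - E - (T k - E) = t - T k := by ring
        rw [this]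
        exact hd
      have g4 : ‖h (T k)‖ * |pk ε (t - E) - pk ε (T k - E)| ≤ κ := by
        calc _ ≤ H * ((ε ^ 2)⁻¹ * ℓ) := mul_le_mul (hH _) g3 (abs_nonneg _) hH0
          _ = (ε ^ 2)⁻¹ * (ℓ * H) := by ring
          _ ≤ (ε ^ 2)⁻¹ * (κ * ε ^ 2) := mul_le_mul_of_nonneg_left hℓH (by positivity)
          _ = κ := by field_simp
      linarith
    have h3 := intervalIntegral.norm_integral_le_of_norm_le_const h2
    rwa [hstep, abs_of_pos hℓ0] at h3
  have hsum : ‖(∫ t : ℝ, F t) - ∑ k ∈ Finset.range N, (ℓ : ℂ) * F (T k)‖ ≤ δ / 2 := by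
    rw [hint, ← Finset.sum_sub_distrib]
    refine (norm_sum_le _ _).trans ?_
    refine (Finset.sum_le_sum fun k _ => hcell k).trans ?_
    rw [Finset.sum_const, Finset.card_range, nsmul_eq_mul, hκ, hℓ]
    apply le_of_eq
    field_simp
    ring
  have hPE := hP E
  have hpi : (Real.pi : ℂ) ≠ 0 := by exact_mod_cast Real.pi_ne_zero
  have hfin : h E - ∑ k ∈ Finset.range N,
      ((Real.pi : ℂ)⁻¹ * ℓ * h (T k)) * ((pk ε (T k - E) : ℝ) : ℂ) = (Real.pi : ℂ)⁻¹ *
      (((Real.pi : ℂ) * h E - ∫ t : ℝ, F t) +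
        ((∫ t : ℝ, F t) - ∑ k ∈ Finset.range N, (ℓ : ℂ) * F (T k))) := by
    have h1 : ∑ k ∈ Finset.range N,
        ((Real.pi : ℂ)⁻¹ * ℓ * h (T k)) * ((pk ε (T k - E) : ℝ) : ℂ) =
        (Real.pi : ℂ)⁻¹ * ∑ k ∈ Finset.range N, (ℓ : ℂ) * F (T k) := by
      rw [Finset.mul_sum]
      refine Finset.sum_congr rfl fun k _ => ?_
      simp only [hF]
      ring
    rw [h1]
    field_simp
    ring
  rw [hfin, norm_mul]
  have h5 : ‖(Real.pi : ℂ)⁻¹‖ ≤ 1 := by
    rw [norm_inv, Complex.norm_real, Real.norm_eq_abs, abs_of_pos Real.pi_pos]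
    exact inv_le_one_of_one_le₀ (by linarith [Real.pi_gt_three])
  calc ‖(Real.pi : ℂ)⁻¹‖ * ‖((Real.pi : ℂ) * h E - ∫ t : ℝ, F t) +
        ((∫ t : ℝ, F t) - ∑ k ∈ Finset.range N, (ℓ : ℂ) * F (T k))‖
      ≤ 1 * (δ / 2 + δ / 2) := by
        apply mul_le_mul h5 ((norm_add_le _ _).trans (add_le_add hPE hsum)) (norm_nonneg _)
          (by norm_num)
    _ = δ := by ring

end Pool.Agent.Helper14.QE
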