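import Pool.Agent.Helper54_QE.Defs2
import Pool.Agent.Helper35_QE.AC
import Pool.Agent.Helper14_QE.SW

/-!
# Approximate functional calculus
-/

set_option autoImplicit false

open scoped InnerProductSpace ComplexConjugate Topology ENNReal
open MeasureTheory Filter

noncomputable section

namespace Pool.Agent.Helper14.QE

open Pool.Agent.QE Pool.Agent.Anderson Pool.Agent.Helper54.Bal Pool.Agent.Helper35.AC

variable {d : ℕ}

/-- single pole -/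
theorem single_approx (V : Cfg d) {w : ℂ} (hw : w.im ≠ 0) {ε : ℝ} (hε : 0 < ε)
    (hεw : ε ≤ |w.im| / 2) (E : ℝ) (f : L2 d) :
    ‖G V w (G V (zz ε E) f) - ((E : ℂ) - w)⁻¹ • G V (zz ε E) f‖ ^ 2 ≤
      2 * (2 / |w.im| ^ 2) ^ 2 * (ε ^ 2 * ‖G V (zz ε E) f‖ ^ 2) +
      2 * (|w.im|⁻¹) ^ 2 * (((E - w.re) ^ 2 + (|w.im| / 2) ^ 2)⁻¹ * ‖f‖ ^ 2) := by
  have hD := isRes_G V
  set y := |w.im| with hy
  have hy0 : 0 < y := abs_pos.2 hw
  have hz : (zz ε E).im ≠ 0 := by simpa using hε.ne'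
  set z := zz ε E with hzdef
  set g := G V z f with hg
  have hden : (E - w.re) ^ 2 + (y / 2) ^ 2 ≤ ‖z - w‖ ^ 2 := by
    rw [← Complex.normSq_eq_norm_sq, Complex.normSq_apply]
    simp only [hzdef, Complex.sub_re, zz_re, Complex.sub_im, zz_im]
    have f1 : y / 2 ≤ |ε - w.im| := by
      have := abs_sub_abs_le_abs_sub w.im ε
      rw [abs_of_pos hε, abs_sub_comm] at this
      linarith
    have f2 : (y / 2) ^ 2 ≤ (ε - w.im) ^ 2 := by
      rw [← sq_abs (ε - w.im)]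
      gcongr
    nlinarith
  have hnorm : y / 2 ≤ ‖z - w‖ := by
    have f2 := norm_nonneg (z - w)
    nlinarith [sq_nonneg (E - w.re)]
  have hzw0 : 0 < ‖z - w‖ := by linarith
  have hzw : z - w ≠ 0 := norm_pos_iff.1 hzw0
  have hEw : y ≤ ‖(E : ℂ) - w‖ := by
    have := Complex.abs_im_le_norm ((E : ℂ) - w)
    simpa using this
  have hEw0 : (E : ℂ) - w ≠ 0 := norm_pos_iff.1 (by linarith)
  have h1 : G V w g = (z - w)⁻¹ • (g - G V w f) := by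
    rw [hg, hD.comm_apply hw hz, hD.ident_apply hz hw, smul_smul, inv_mul_cancel₀ hzw, one_smul]
  have h2 : G V w g - ((E : ℂ) - w)⁻¹ • g =
      ((z - w)⁻¹ - ((E : ℂ) - w)⁻¹) • g - (z - w)⁻¹ • G V w f := by
    rw [h1, smul_sub, sub_smul]
    abel
  have h3 : ‖(z - w)⁻¹ - ((E : ℂ) - w)⁻¹‖ ≤ 2 / y ^ 2 * ε := by
    have e1 : (z - w)⁻¹ - ((E : ℂ) - w)⁻¹ = -(ε * Complex.I) / ((z - w) * ((E : ℂ) - w)) := by
      rw [inv_sub_inv hzw hEw0]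
      congr 1
      rw [hzdef]
      unfold zz
      ring
    rw [e1, norm_div, norm_neg, norm_mul, norm_mul, Complex.norm_I, mul_one, Complex.norm_real,
      Real.norm_eq_abs, abs_of_pos hε]
    calc ε / (‖z - w‖ * ‖(E : ℂ) - w‖) ≤ ε / (y / 2 * y) := by gcongr
      _ = 2 / y ^ 2 * ε := by field_simp
  have h4 : ‖G V w f‖ ≤ y⁻¹ * ‖f‖ := hD.norm_le' hw f
  rw [h2]
  have h5 : ‖((z - w)⁻¹ - ((E : ℂ) - w)⁻¹) • g - (z - w)⁻¹ • G V w f‖ ≤
      (2 / y ^ 2 * ε) * ‖g‖ + ‖z - w‖⁻¹ * (y⁻¹ * ‖f‖) := by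
    refine (norm_sub_le _ _).trans ?_
    rw [norm_smul, norm_smul, norm_inv (z - w)]
    gcongr
  have h6 : (‖z - w‖⁻¹) ^ 2 ≤ ((E - w.re) ^ 2 + (y / 2) ^ 2)⁻¹ := by
    rw [inv_pow]
    exact inv_anti₀ (by positivity) hden
  set a := (2 / y ^ 2 * ε) * ‖g‖ with ha
  set b := ‖z - w‖⁻¹ * (y⁻¹ * ‖f‖) with hb
  have ha0 : 0 ≤ a := by positivity
  have hb0 : 0 ≤ b := by positivity
  calc _ ≤ (a + b) ^ 2 := by gcongr
    _ ≤ 2 * a ^ 2 + 2 * b ^ 2 := by nlinarith [sq_nonneg (a - b)]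
    _ = 2 * (2 / y ^ 2) ^ 2 * (ε ^ 2 * ‖g‖ ^ 2) +
        2 * (y⁻¹) ^ 2 * ((‖z - w‖⁻¹) ^ 2 * ‖f‖ ^ 2) := by rw [ha, hb]; ring
    _ ≤ _ := by gcongr

/-- all poles -/
theorem rf_approx (V : Cfg d) (p : RF) : ∃ (y0 K : ℝ) (W : ℝ → ℝ), 0 < y0 ∧ 0 ≤ K ∧
    Integrable W ∧ (∀ E, 0 ≤ W E) ∧ ∀ ε, 0 < ε → ε < y0 → ∀ (E : ℝ) (f : L2 d),
      ‖p.op V (G V (zz ε E) f) - p.ev E • G V (zz ε E) f‖ ^ 2 ≤
        K * (ε ^ 2 * ‖G V (zz ε E) f‖ ^ 2 + W E * ‖f‖ ^ 2) := by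
  set y : Fin p.n → ℝ := fun i => |(p.w i).im| with hy
  have hy0 : ∀ i, 0 < y i := fun i => abs_pos.2 (p.hw i)
  set S : ℝ := 1 + ∑ i, 2 / y i with hS
  have hsum : ∀ i, 2 / y i ≤ ∑ i, 2 / y i := fun i =>
    Finset.single_le_sum (f := fun i => 2 / y i) (fun j _ => by have := hy0 j; positivity)
      (Finset.mem_univ i)
  have hS0 : 0 < S := by
    have : 0 ≤ ∑ i, 2 / y i := Finset.sum_nonneg fun j _ => by have := hy0 j; positivity
    linarith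
  set Ki : Fin p.n → ℝ := fun i => 2 * (2 / y i ^ 2) ^ 2 + 2 * ((y i)⁻¹) ^ 2 with hKi
  have hKi0 : ∀ i, 0 ≤ Ki i := fun i => by simp only [hKi]; positivity
  set Wi : Fin p.n → ℝ → ℝ := fun i E => ((E - (p.w i).re) ^ 2 + (y i / 2) ^ 2)⁻¹ with hWi
  have hWi0 : ∀ i E, 0 ≤ Wi i E := fun i E => by simp only [hWi]; positivity
  refine ⟨S⁻¹, (p.n : ℝ) * ∑ i, ‖p.a i‖ ^ 2 * Ki i, fun E => ∑ i, Wi i E, by positivity,
    ?_, ?_, ?_, ?_⟩
  · exact mul_nonneg (Nat.cast_nonneg _)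
      (Finset.sum_nonneg fun i _ => mul_nonneg (sq_nonneg _) (hKi0 i))
  · refine integrable_finsetSum _ fun i _ => ?_
    have h := hy0 i
    exact (integral_shift_poisson (show 0 < y i / 2 by positivity) (p.w i).re).1
  · intro E
    exact Finset.sum_nonneg fun i _ => hWi0 i E
  · intro ε hε hεS E f
    have hεi : ∀ i, ε ≤ y i / 2 := by
      intro i
      have h := hy0 i
      have h1 : 2 / y i ≤ S := by linarith [hsum i]
      have h2 : S⁻¹ ≤ (2 / y i)⁻¹ := inv_anti₀ (by positivity) h1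
      rw [inv_div] at h2
      linarith
    set g := G V (zz ε E) f with hg
    have e1 : p.op V g - p.ev E • g =
        ∑ i, p.a i • (G V (p.w i) g - ((E : ℂ) - p.w i)⁻¹ • g) := by
      unfold RF.op RF.ev
      rw [ContinuousLinearMap.sum_apply, Finset.sum_smul, ← Finset.sum_sub_distrib]
      refine Finset.sum_congr rfl fun i _ => ?_
      rw [ContinuousLinearMap.smul_apply, smul_sub, smul_smul, div_eq_mul_inv]
    rw [e1]
    have e2 : ‖∑ i, p.a i • (G V (p.w i) g - ((E : ℂ) - p.w i)⁻¹ • g)‖ ^ 2 ≤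
        (p.n : ℝ) * ∑ i, (‖p.a i‖ * ‖G V (p.w i) g - ((E : ℂ) - p.w i)⁻¹ • g‖) ^ 2 := by
      have h1 : ‖∑ i, p.a i • (G V (p.w i) g - ((E : ℂ) - p.w i)⁻¹ • g)‖ ≤
          ∑ i, ‖p.a i‖ * ‖G V (p.w i) g - ((E : ℂ) - p.w i)⁻¹ • g‖ := by
        refine (norm_sum_le _ _).trans (le_of_eq ?_)
        exact Finset.sum_congr rfl fun i _ => norm_smul _ _
      have h2 := sq_sum_le_card_mul_sum_sq (s := Finset.univ)
        (f := fun i => ‖p.a i‖ * ‖G V (p.w i) g - ((E : ℂ) - p.w i)⁻¹ • g‖)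
      rw [Finset.card_univ, Fintype.card_fin] at h2
      calc _ ≤ (∑ i, ‖p.a i‖ * ‖G V (p.w i) g - ((E : ℂ) - p.w i)⁻¹ • g‖) ^ 2 := by gcongr
        _ ≤ _ := h2
    refine e2.trans ?_
    rw [mul_assoc, Finset.sum_mul]
    apply mul_le_mul_of_nonneg_left _ (Nat.cast_nonneg _)
    refine Finset.sum_le_sum fun i _ => ?_
    rw [mul_pow, mul_assoc]
    apply mul_le_mul_of_nonneg_left _ (sq_nonneg _)
    have h3 := single_approx V (p.hw i) hε (hεi i) E f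
    rw [← hg] at h3
    have h4 : Wi i E ≤ ∑ i, Wi i E :=
      Finset.single_le_sum (f := fun i => Wi i E) (fun j _ => hWi0 j E) (Finset.mem_univ i)
    have hf2 : 0 ≤ ‖f‖ ^ 2 := sq_nonneg _
    have h5 : Wi i E * ‖f‖ ^ 2 ≤ (∑ i, Wi i E) * ‖f‖ ^ 2 := mul_le_mul_of_nonneg_right h4 hf2
    have h6 : 0 ≤ ε ^ 2 * ‖g‖ ^ 2 := by positivity
    have h7 : 0 ≤ Wi i E * ‖f‖ ^ 2 := mul_nonneg (hWi0 i E) hf2
    have c1 : 0 ≤ 2 * (2 / y i ^ 2) ^ 2 := by positivity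
    have c2 : 0 ≤ 2 * ((y i)⁻¹) ^ 2 := by positivity
    calc _ ≤ _ := h3
      _ = 2 * (2 / y i ^ 2) ^ 2 * (ε ^ 2 * ‖g‖ ^ 2) + 2 * ((y i)⁻¹) ^ 2 * (Wi i E * ‖f‖ ^ 2) := rfl
      _ ≤ Ki i * (ε ^ 2 * ‖g‖ ^ 2 + (∑ i, Wi i E) * ‖f‖ ^ 2) := by
        simp only [hKi]
        have t1 := mul_nonneg c1 (h7.trans h5)
        have t2 := mul_nonneg c2 h6
        have t3 := mul_le_mul_of_nonneg_left h5 c2
        linarith

theorem rf_bound (p : RF) : ∃ P : ℝ, 0 ≤ P ∧ ∀ E, ‖p.ev E‖ ≤ P := by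
  refine ⟨∑ i, ‖p.a i‖ * |(p.w i).im|⁻¹, Finset.sum_nonneg fun i _ => by positivity, fun E => ?_⟩
  unfold RF.ev
  refine (norm_sum_le _ _).trans (Finset.sum_le_sum fun i _ => ?_)
  rw [div_eq_mul_inv, norm_mul]
  exact mul_le_mul_of_nonneg_left (norm_inv_le (p.hw i) E) (norm_nonneg _)

theorem rf_continuous (p : RF) : Continuous p.ev := by
  unfold RF.ev
  refine continuous_finsetSum _ fun i _ => ?_
  refine continuous_const.div (by fun_prop) fun E => ?_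
  exact real_sub_ne (p.hw i) E

theorem op_comm (V : Cfg d) (p : RF) {z : ℂ} (hz : z.im ≠ 0) (f : L2 d) :
    p.op V (G V z f) = G V z (p.op V f) := by
  have hD := isRes_G V
  unfold RF.op
  rw [ContinuousLinearMap.sum_apply, ContinuousLinearMap.sum_apply, map_sum]
  refine Finset.sum_congr rfl fun i _ => ?_
  rw [ContinuousLinearMap.smul_apply, ContinuousLinearMap.smul_apply, map_smul,
    hD.comm_apply (p.hw i) hz]

end Pool.Agent.Helper14.QE
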